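import Pool.Agent.T6.H41.K5.Herm
import Pool.Agent.R895.LemB

/-!
# A lower bound for the trace of a product of two positive forms, in rank at most five
-/

set_option autoImplicit false

namespace Pool.Agent.T6.H41.K5

open Matrix
open Pool.Agent.R895

variable {n : ℕ}

theorem prod_y5 {H : Matrix (Fin 5) (Fin 5) ℂ} (hH : Pd H) {h : ℝ} (hh : 0 < h)
    (hmin : ∀ w, IsLat w → w ≠ 0 → h ≤ q H w) :
    (2 / 3) ^ 10 * (2 / 3 * (31 / 100) ^ 3 * h ^ 5) ≤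
      ∏ i : Fin 5, ((2 / 3 : ℝ) ^ (i : ℕ) * hs 5 H i) := by
  rw [Finset.prod_mul_distrib, prod_hs 5 H hH]
  have h1 : ∏ i : Fin 5, (2 / 3 : ℝ) ^ (i : ℕ) = (2 / 3) ^ 10 := by
    simp [Fin.prod_univ_succ]
    norm_num
  rw [h1]
  exact mul_le_mul_of_nonneg_left (hermite5 hH hh hmin) (by positivity)

theorem V5 {H : Matrix (Fin 5) (Fin 5) ℂ} (hH : Pd H) {h : ℝ} (hh : 0 < h)
    (hmin : ∀ w, IsLat w → w ≠ 0 → h ≤ q H w) :
    101 / 100 * h ≤ ∑ i : Fin 5, (2 / 3 : ℝ) ^ (i : ℕ) * hs 5 H i := by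
  have h1 := prod_y5 hH hh hmin
  have h2 := amgm 5 (by norm_num) (fun i => (2 / 3 : ℝ) ^ (i : ℕ) * hs 5 H i)
    (fun i => mul_nonneg (by positivity) (hs_pos 5 H hH i).le)
  have h3 := h1.trans h2
  set s := ∑ i : Fin 5, (2 / 3 : ℝ) ^ (i : ℕ) * hs 5 H i with hs'
  have hs0 : 0 ≤ s := Finset.sum_nonneg fun i _ => mul_nonneg (by positivity) (hs_pos 5 H hH i).le
  by_contra hcon
  push Not at hcon
  have h4 : (s / (5 : ℕ)) ^ 5 < (101 / 100 * h / (5 : ℕ)) ^ 5 :=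
    pow_lt_pow_left₀ (div_lt_div_of_pos_right hcon (by norm_num)) (by positivity) (by norm_num)
  have h5 := lt_of_le_of_lt h3 h4
  have h6 : (101 / 100 * h / (5 : ℕ)) ^ 5 = (101 / 500) ^ 5 * h ^ 5 := by
    push_cast
    ring
  rw [h6] at h5
  have h7 : 0 < h ^ 5 := by positivity
  nlinarith

/-- The weighted sum of the successive Schur complements is at least `h`. -/
theorem V_ge {H : Matrix (Fin n) (Fin n) ℂ} (hn0 : 1 ≤ n) (hn : n ≤ 5) (hH : Pd H) {h : ℝ}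
    (hh : 0 < h) (hmin : ∀ w, IsLat w → w ≠ 0 → h ≤ q H w) :
    h ≤ ∑ i : Fin n, (2 / 3 : ℝ) ^ (i : ℕ) * hs n H i := by
  rcases (show n ≤ 4 ∨ n = 5 by omega) with h1 | rfl
  · exact Pool.Agent.R895.V_ge hn0 h1 hH hh hmin
  · have := V5 hH hh hmin
    linarith

theorem V_ge' {H : Matrix (Fin n) (Fin n) ℂ} (hn0 : 2 ≤ n) (hn : n ≤ 5) (hH : Pd H) {h : ℝ}
    (hh : 0 < h) (hmin : ∀ w, IsLat w → w ≠ 0 → h ≤ q H w) :
    101 / 100 * h ≤ ∑ i : Fin n, (2 / 3 : ℝ) ^ (i : ℕ) * hs n H i := by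
  rcases (show n ≤ 4 ∨ n = 5 by omega) with h1 | rfl
  · have := Pool.Agent.R895.V_ge' hn0 h1 hH hh hmin
    linarith
  · exact V5 hH hh hmin

/-- The final combination. -/
theorem comb {H : Matrix (Fin n) (Fin n) ℂ} (hn : n ≤ 5) (hH : Pd H) {h : ℝ}
    (hh : 0 < h) (hmin : ∀ w, IsLat w → w ≠ 0 → h ≤ q H w) (m : Fin n → ℝ) (hm : ∀ i, 0 < m i)
    (hch : ∀ i j : Fin n, (i : ℕ) + 1 = j → 2 / 3 * m i ≤ m j) (k : Fin n) :
    h * (m k + 1 / 3 * ∑ i ∈ Finset.univ.filter (· < k), m i) ≤ ∑ i, m i * hs n H i := by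
  rcases (show n ≤ 4 ∨ n = 5 by omega) with h1 | rfl
  · exact Pool.Agent.R895.comb h1 hH hh hmin m hm hch k
  have v0 := V_ge (by norm_num) (by norm_num) hH hh hmin
  have v1 := V_ge (by norm_num) (by norm_num) hH.tl hh (min_tl hmin)
  have v2 := V_ge (by norm_num) (by norm_num) hH.tl.tl hh (min_tl (min_tl hmin))
  have v3 := V_ge (by norm_num) (by norm_num) hH.tl.tl.tl hh (min_tl (min_tl (min_tl hmin)))
  have v4 := V_ge (by norm_num) (by norm_num) hH.tl.tl.tl.tl hh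
    (min_tl (min_tl (min_tl (min_tl hmin))))
  have c0 := hch 0 1 rfl
  have c1 := hch 1 2 rfl
  have c2 := hch 2 3 rfl
  have c3 := hch 3 4 rfl
  have p0 := hm 0
  have a0 := mul_nonneg p0.le (sub_nonneg.2 v0)
  have a1 := mul_nonneg (sub_nonneg.2 c0) (sub_nonneg.2 v1)
  have a2 := mul_nonneg (sub_nonneg.2 c1) (sub_nonneg.2 v2)
  have a3 := mul_nonneg (sub_nonneg.2 c2) (sub_nonneg.2 v3)
  have a4 := mul_nonneg (sub_nonneg.2 c3) (sub_nonneg.2 v4)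
  have b1 := mul_nonneg (sub_nonneg.2 c0) hh.le
  have b2 := mul_nonneg (sub_nonneg.2 c1) hh.le
  have b3 := mul_nonneg (sub_nonneg.2 c2) hh.le
  have b4 := mul_nonneg (sub_nonneg.2 c3) hh.le
  simp [Fin.sum_univ_succ, Finset.sum_filter, hs_succ] at a0 a1 a2 a3 a4 b1 b2 b3 b4 ⊢
  fin_cases k <;> simp <;> nlinarith

end Pool.Agent.T6.H41.K5
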