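import Pool.Agent.T6.H41.K5.Hkz

/-!
# The inequality of Hermite for forms in five variables
-/

set_option autoImplicit false

namespace Pool.Agent.T6.H41.K5

open Matrix
open Pool.Agent.R895

theorem isLat_five {a b c d e : ℂ} (ha : IsEis a) (hb : IsEis b) (hc : IsEis c) (hd : IsEis d)
    (he : IsEis e) : IsLat ![a, b, c, d, e] := by
  intro i
  fin_cases i <;> assumption

/-- The constant `(2/3) (31/100)³`. -/
theorem hermite5 {H : Matrix (Fin 5) (Fin 5) ℂ} (hH : Pd H) {h : ℝ} (hh : 0 < h)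
    (hmin : ∀ w, IsLat w → w ≠ 0 → h ≤ q H w) :
    2 / 3 * (31 / 100) ^ 3 * h ^ 5 ≤ H.det.re := by
  obtain ⟨g, x, m, hg, hm, hkz, hd, hz, hdec⟩ := exists_hkz 5 H hH
  have h1 : H.det = ((∏ i, m i : ℝ) : ℂ) := by
    rw [← det_dec m x hd hz, ← hdec, det_mul, det_mul, det_conjTranspose]
    have h2 : star g.det * H.det * g.det = ((Complex.normSq g.det : ℝ) : ℂ) * H.det := by
      have : star g.det * g.det = ((Complex.normSq g.det : ℝ) : ℂ) :=
        Complex.normSq_eq_conj_mul_self.symm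
      rw [← this]; ring
    rw [h2, hg.normSq_det]
    simp
  rw [h1, Complex.ofReal_re]
  have m0 := hm 0
  have m1 := hm 1
  have m2 := hm 2
  have m3 := hm 3
  have m4 := hm 4
  have hz0 : h ≤ m 0 := by
    have h2 := hmin _ (hg.mulVec (isLat_single 0)) (hg.mulVec_ne (single_ne 0))
    rw [q_single H g x m hdec 0, Finset.sum_eq_single 0] at h2
    · rw [hd] at h2
      simpa using h2
    · intro j _ hj
      rw [hz j 0 (Fin.pos_of_ne_zero hj)]
      simp
    · intro h; exact absurd (Finset.mem_univ _) h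
  have d0 := hd 0
  have d1 := hd 1
  have d2 := hd 2
  have d3 := hd 3
  have d4 := hd 4
  have z10 := hz 1 0 (by decide)
  have z20 := hz 2 0 (by decide)
  have z21 := hz 2 1 (by decide)
  have z30 := hz 3 0 (by decide)
  have z31 := hz 3 1 (by decide)
  have z32 := hz 3 2 (by decide)
  have z40 := hz 4 0 (by decide)
  have z41 := hz 4 1 (by decide)
  have z42 := hz 4 2 (by decide)
  have z43 := hz 4 3 (by decide)
  -- the first step
  have s0 : ∀ z, IsEis z → m 0 ≤ m 0 * Complex.normSq (z + star (x 0 1)) + m 1 := by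
    intro z hze
    have h2 := hkz 0 ![z, 1, 0, 0, 0]
      (isLat_five hze IsEis.one IsEis.zero IsEis.zero IsEis.zero) ⟨1, by decide, rfl⟩
    simpa [Fin.sum_univ_succ, dotProduct, d0, d1, d2, d3, d4, z10, z20, z21, z30, z31, z32, z40,
      z41, z42, z43] using h2
  have s1 : ∀ z, IsEis z → m 1 ≤ m 1 * Complex.normSq (z + star (x 1 2)) + m 2 := by
    intro z hze
    have h2 := hkz 1 ![0, z, 1, 0, 0]
      (isLat_five IsEis.zero hze IsEis.one IsEis.zero IsEis.zero) ⟨2, by decide, rfl⟩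
    simpa [Fin.sum_univ_succ, dotProduct, d0, d1, d2, d3, d4, z10, z20, z21, z30, z31, z32, z40,
      z41, z42, z43, add_assoc] using h2
  have s2 : ∀ z, IsEis z → m 2 ≤ m 2 * Complex.normSq (z + star (x 2 3)) + m 3 := by
    intro z hze
    have h2 := hkz 2 ![0, 0, z, 1, 0]
      (isLat_five IsEis.zero IsEis.zero hze IsEis.one IsEis.zero) ⟨3, by decide, rfl⟩
    simpa [Fin.sum_univ_succ, dotProduct, d0, d1, d2, d3, d4, z10, z20, z21, z30, z31, z32, z40,
      z41, z42, z43, add_assoc] using h2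
  have s3 : ∀ z, IsEis z → m 3 ≤ m 3 * Complex.normSq (z + star (x 3 4)) + m 4 := by
    intro z hze
    have h2 := hkz 3 ![0, 0, 0, z, 1]
      (isLat_five IsEis.zero IsEis.zero IsEis.zero hze IsEis.one) ⟨4, by decide, rfl⟩
    simpa [Fin.sum_univ_succ, dotProduct, d0, d1, d2, d3, d4, z10, z20, z21, z30, z31, z32, z40,
      z41, z42, z43, add_assoc] using h2
  have t0 : ∀ z₀ z₁, IsEis z₀ → IsEis z₁ → m 0 ≤ m 0 * Complex.normSq
      (z₀ + star (x 0 1) * z₁ + star (x 0 2)) + m 1 * Complex.normSq (z₁ + star (x 1 2)) + m 2 := by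
    intro z₀ z₁ hz₀ hz₁
    have h2 := hkz 0 ![z₀, z₁, 1, 0, 0]
      (isLat_five hz₀ hz₁ IsEis.one IsEis.zero IsEis.zero) ⟨2, by decide, rfl⟩
    simpa [Fin.sum_univ_succ, dotProduct, d0, d1, d2, d3, d4, z10, z20, z21, z30, z31, z32, z40,
      z41, z42, z43, add_assoc] using h2
  have t2 : ∀ z₀ z₁, IsEis z₀ → IsEis z₁ → m 2 ≤ m 2 * Complex.normSq
      (z₀ + star (x 2 3) * z₁ + star (x 2 4)) + m 3 * Complex.normSq (z₁ + star (x 3 4)) + m 4 := by
    intro z₀ z₁ hz₀ hz₁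
    have h2 := hkz 2 ![0, 0, z₀, z₁, 1]
      (isLat_five IsEis.zero IsEis.zero hz₀ hz₁ IsEis.one) ⟨4, by decide, rfl⟩
    simpa [Fin.sum_univ_succ, dotProduct, d0, d1, d2, d3, d4, z10, z20, z21, z30, z31, z32, z40,
      z41, z42, z43, add_assoc] using h2
  have c0 := triple m0 m1 m2 s0 s1 t0
  have c2 := triple m2 m3 m4 s2 s3 t2
  have c1 : 2 / 3 * m 1 ≤ m 2 := by
    obtain ⟨e, he, h4⟩ := exists_near (star (x 1 2))
    have h5 := s1 (-e) he.neg
    rw [show -e + star (x 1 2) = star (x 1 2) - e by ring] at h5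
    have := mul_le_mul_of_nonneg_left h4 m1.le
    linarith
  have hprod : ∏ i, m i = m 0 * (m 1 * m 2) * (m 3 * m 4) := by
    simp [Fin.prod_univ_succ]
    ring
  rw [hprod]
  -- `m₂² ≥ (2/3) m₁ m₂ ≥ (2/3) c m₀²`
  have k1 : 2 / 3 * (m 1 * m 2) ≤ m 2 * m 2 := by nlinarith
  have k2 : 31 / 100 * (2 / 3 * (m 1 * m 2)) ≤ m 3 * m 4 :=
    (mul_le_mul_of_nonneg_left k1 (by norm_num)).trans c2
  have k3 : 31 / 100 * (h * h) ≤ m 1 * m 2 :=
    (mul_le_mul_of_nonneg_left (mul_self_le_mul_self hh.le hz0) (by norm_num)).trans c0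
  have k4 : 31 / 100 * (2 / 3 * (31 / 100 * (h * h))) ≤ m 3 * m 4 :=
    le_trans (by nlinarith) k2
  calc 2 / 3 * (31 / 100) ^ 3 * h ^ 5 =
        h * (31 / 100 * (h * h)) * (31 / 100 * (2 / 3 * (31 / 100 * (h * h)))) := by ring
    _ ≤ m 0 * (m 1 * m 2) * (m 3 * m 4) := by
        apply mul_le_mul (mul_le_mul hz0 k3 (by positivity) m0.le) k4 (by positivity)
        positivity

end Pool.Agent.T6.H41.K5
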