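import Pool.Agent.R895.Red

/-!
# Deep holes of the hexagonal lattice and triples of minima of hermitian forms

Let `p |z₀ + x z₁ + y z₂|² + q |z₁ + w z₂|² + r |z₂|²` be a positive definite hermitian form over the
Eisenstein integers which is reduced in the sense of Hermite, Korkine and Zolotareff. The inequality
of Hermite gives `q ≥ (2/3) p` and `r ≥ (2/3) q`, so `q r ≥ (8/27) p²`. Here it is shown that
`q r ≥ (31/100) p²`: if this is false, then `x` and `w` are close to deep holes of the lattice, and a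
vector with `z₂ = 1` and a value less than `p` can be found.
-/

set_option autoImplicit false

namespace Pool.Agent.T6.H41.K5

open Pool.Agent.R895 Complex

/-- `√-3 = 1 + 2 ω`. -/
noncomputable def lam : ℂ := 1 + 2 * om

theorem lam_sq : lam * lam = -3 := by
  have h := om_sq
  unfold lam
  linear_combination 4 * h

theorem lam_ne : lam ≠ 0 := by
  intro h
  have := lam_sq
  rw [h] at this
  norm_num at this

theorem lam_eis : IsEis lam := ⟨1, 2, by unfold lam; push_cast; ring⟩

theorem normSq_lam : normSq lam = 3 := by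
  have h : lam = ((1 : ℝ) : ℂ) + ((2 : ℝ) : ℂ) * om := by unfold lam; push_cast; ring
  rw [h, normSq_ab]
  norm_num

/-- Every Eisenstein integer is congruent to `0`, `1` or `-1` modulo `√-3`. -/
theorem eis_mod {e : ℂ} (he : IsEis e) : ∃ (t : ℂ) (s : ℤ), IsEis t ∧ (s = 0 ∨ s = 1 ∨ s = -1) ∧
    e = lam * t + s := by
  obtain ⟨a, b, rfl⟩ := he
  -- `ω = 1 + λ ω²`-type relations: `λ (c + d ω) = (c - 2 d) + (2 c - d) ω`
  -- so `a + b ω ≡ a + b (mod λ)`
  obtain ⟨k, s, hs, hk⟩ : ∃ (k s : ℤ), (s = 0 ∨ s = 1 ∨ s = -1) ∧ a + b = 3 * k + s := by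
    have h1 := Int.emod_add_mul_ediv (a + b) 3
    have h2 := Int.emod_nonneg (a + b) (show (3 : ℤ) ≠ 0 by norm_num)
    have h3 := Int.emod_lt_of_pos (a + b) (show (0 : ℤ) < 3 by norm_num)
    rcases (show (a + b) % 3 = 0 ∨ (a + b) % 3 = 1 ∨ (a + b) % 3 = 2 by omega) with h | h | h
    · exact ⟨(a + b) / 3, 0, Or.inl rfl, by omega⟩
    · exact ⟨(a + b) / 3, 1, Or.inr (Or.inl rfl), by omega⟩
    · exact ⟨(a + b) / 3 + 1, -1, Or.inr (Or.inr rfl), by omega⟩
  refine ⟨((b - k : ℤ) : ℂ) + ((b - 2 * k : ℤ) : ℂ) * om, s, ⟨b - k, b - 2 * k, rfl⟩, hs, ?_⟩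
  have h := om_sq
  have hk' : (a : ℂ) + b = 3 * k + s := by exact_mod_cast hk
  unfold lam
  push_cast
  linear_combination hk' - 2 * ((b : ℂ) - 2 * k) * h

/-- The lattice `ℤ[ω] / √-3` has covering radius `1 / 3`. -/
theorem near3 (z : ℂ) : ∃ (t : ℂ) (s : ℤ) (D : ℂ), IsEis t ∧ (s = 0 ∨ s = 1 ∨ s = -1) ∧
    lam * (z - t) = s + D ∧ normSq D ≤ 1 / 3 := by
  obtain ⟨e, he, h1⟩ := exists_near (lam * z)
  obtain ⟨t, s, ht, hs, rfl⟩ := eis_mod he
  refine ⟨t, s, lam * z - (lam * t + s), ht, hs, by ring, h1⟩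

theorem normSq_add_le (u v : ℂ) : normSq (u + v) ≤ 11 / 10 * normSq u + 11 * normSq v := by
  rw [normSq_apply, normSq_apply, normSq_apply, add_re, add_im]
  nlinarith [sq_nonneg (u.re - 10 * v.re), sq_nonneg (u.im - 10 * v.im)]

/-- The three Eisenstein integers `0`, `1 + ω`, `ω`. -/
theorem three (j : Fin 3) : ∃ v : ℂ, IsEis v ∧ normSq v ≤ 1 ∧ lam * v = om ^ (j : ℕ) - 1 ∧
    (j = 0 → v = 0) ∧ (j = 1 → v = 1 + om) ∧ (j = 2 → v = om) := by
  have h := om_sq
  have h1 : normSq (1 + om) = 1 := by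
    have := normSq_ab 1 1
    push_cast at this
    rw [one_mul] at this
    rw [this]; norm_num
  have h2 : normSq om = 1 := by
    have := normSq_ab 0 1
    push_cast at this
    rw [one_mul, zero_add] at this
    rw [this]; norm_num
  fin_cases j
  · exact ⟨0, IsEis.zero, by simp, by simp, by simp, by simp, by simp⟩
  · refine ⟨1 + om, IsEis.one.add IsEis.omega, h1.le, ?_, by simp, by simp, by simp⟩
    unfold lam
    simp only [pow_one]
    linear_combination 2 * h
  · refine ⟨om, IsEis.omega, h2.le, ?_, by simp, by simp, by simp⟩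
    unfold lam
    show (1 + 2 * om) * om = om ^ 2 - 1
    linear_combination h

theorem om_re : om.re = -1 / 2 := rfl
theorem om_im : om.im = √3 / 2 := rfl

theorem three_ineq {M p q : ℝ} (h0 : -(2 * p) ≤ M) (h1 : p - √3 * q ≤ M) (h2 : p + √3 * q ≤ M) :
    p ^ 2 + q ^ 2 ≤ M ^ 2 := by
  have h3 := sqrt3_sq
  have h4 : (√3 * q) ^ 2 = 3 * q ^ 2 := by
    have : (√3 * q) ^ 2 = (√3 * √3) * q ^ 2 := by ring
    rw [this, h3]
  have h5 : 0 ≤ (M - p - √3 * q) * (M - p + √3 * q) := mul_nonneg (by linarith) (by linarith)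
  have h6 : 0 ≤ (M - p) * (M + 2 * p) := mul_nonneg (by linarith) (by linarith)
  nlinarith

/-- A point which is far from the lattice is close to a deep hole. -/
theorem hole {z : ℂ} {η B : ℝ} (hη : η < 2 / 3)
    (hB : ∀ N : ℝ, N ≤ 1 / 3 → N ≤ (N + η) ^ 2 → N ≤ B)
    (h : ∀ e, IsEis e → 1 - η ≤ 3 * normSq (z + e)) :
    ∃ (t : ℂ) (s : ℤ) (D : ℂ), IsEis t ∧ (s = 1 ∨ s = -1) ∧ lam * (z - t) = s + D ∧
      normSq D ≤ B := by
  obtain ⟨t, s, D, ht, hs, h1, h2⟩ := near3 z
  have hs' : s = 1 ∨ s = -1 := by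
    rcases hs with rfl | hs
    · exfalso
      have h3 := h (-t) ht.neg
      have h4 : normSq (lam * (z - t)) = 3 * normSq (z + -t) := by
        rw [normSq_mul, normSq_lam, sub_eq_add_neg]
      rw [h1] at h4
      simp only [Int.cast_zero, zero_add] at h4
      linarith
    · exact hs
  refine ⟨t, s, D, ht, hs', h1, ?_⟩
  -- the three constraints
  have hc : ∀ j : Fin 3, 1 - η ≤ normSq (D + s * om ^ (j : ℕ)) := by
    intro j
    obtain ⟨v, hv, -, hv1, -⟩ := three j
    have h3 := h (-t + s * v) (ht.neg.add ((IsEis.intCast s).mul hv))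
    have h4 : lam * (z + (-t + s * v)) = D + s * om ^ (j : ℕ) := by
      linear_combination h1 + s * hv1
    have h5 : normSq (lam * (z + (-t + s * v))) = 3 * normSq (z + (-t + s * v)) := by
      rw [normSq_mul, normSq_lam]
    rw [h4] at h5
    linarith
  have c0 := hc 0
  have c1 := hc 1
  have c2 := hc 2
  have h3 := sqrt3_sq
  have e2 : om ^ 2 = -1 - om := by rw [pow_two]; exact om_sq
  simp only [Fin.val_zero, pow_zero, Fin.val_one, pow_one, Fin.val_two, e2] at c0 c1 c2
  apply hB _ h2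
  rw [normSq_apply] at c0 c1 c2 ⊢
  have key : ∀ σ : ℝ, σ * σ = 1 → 1 - η ≤ (D.re + σ) ^ 2 + D.im ^ 2 →
      1 - η ≤ (D.re - σ / 2) ^ 2 + (D.im + σ * √3 / 2) ^ 2 →
      1 - η ≤ (D.re - σ / 2) ^ 2 + (D.im - σ * √3 / 2) ^ 2 →
      D.re * D.re + D.im * D.im ≤ (D.re * D.re + D.im * D.im + η) ^ 2 := by
    intro σ hσ k0 k1 k2
    have hσ3 : (σ * √3) ^ 2 = 3 := by
      have : (σ * √3) ^ 2 = (σ * σ) * (√3 * √3) := by ring
      rw [this, hσ, h3]; norm_num
    have m := three_ineq (M := D.re * D.re + D.im * D.im + η) (p := σ * D.re) (q := σ * D.im)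
      (by nlinarith) (by nlinarith) (by nlinarith)
    have : (σ * D.re) ^ 2 + (σ * D.im) ^ 2 = D.re * D.re + D.im * D.im := by
      have : (σ * D.re) ^ 2 + (σ * D.im) ^ 2 = (σ * σ) * (D.re * D.re + D.im * D.im) := by ring
      rw [this, hσ, one_mul]
    linarith
  rcases hs' with rfl | rfl
  · apply key 1 (by norm_num)
    · simp at c0; nlinarith
    · simp [om_re, om_im] at c1; nlinarith
    · simp [om_re, om_im] at c2; nlinarith
  · apply key (-1) (by norm_num)
    · simp at c0; nlinarith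
    · simp [om_re, om_im] at c1; nlinarith
    · simp [om_re, om_im] at c2; nlinarith

theorem normSq_pm {s : ℤ} (h : s = 1 ∨ s = -1) : normSq (s : ℂ) = 1 := by
  rcases h with rfl | rfl <;> simp

theorem sq_pm {s : ℤ} (h : s = 1 ∨ s = -1) : s * s = 1 := by
  rcases h with rfl | rfl <;> simp

/-- The inequality `q r ≥ (31/100) p²`, for `p = 1`. -/
theorem triple1 {a b : ℝ} {x w y : ℂ} (ha : 0 < a) (hb : 0 < b)
    (h1 : ∀ z, IsEis z → 1 ≤ normSq (z + x) + a)
    (h2 : ∀ z, IsEis z → a ≤ a * normSq (z + w) + b)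
    (h3 : ∀ z₀ z₁, IsEis z₀ → IsEis z₁ →
      1 ≤ normSq (z₀ + x * z₁ + y) + a * normSq (z₁ + w) + b) : 31 / 100 ≤ a * b := by
  by_contra hcon
  push Not at hcon
  have ha1 : 2 / 3 ≤ a := by
    obtain ⟨e, he, h4⟩ := exists_near x
    have := h1 (-e) he.neg
    rw [show -e + x = x - e by ring] at this
    linarith
  have hb1 : 2 / 3 * a ≤ b := by
    obtain ⟨e, he, h4⟩ := exists_near w
    have h5 := h2 (-e) he.neg
    rw [show -e + w = w - e by ring] at h5
    have := mul_le_mul_of_nonneg_left h4 ha.le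
    linarith
  have ha2 : a ≤ 682 / 1000 := by
    by_contra h
    push Not at h
    nlinarith [mul_le_mul_of_nonneg_left hb1 ha.le]
  have hb2 : b ≤ 465 / 1000 := by
    by_contra h
    push Not at h
    nlinarith
  -- `x` and `w` are close to deep holes
  obtain ⟨t, s, D, ht, hs, hx, hD⟩ := hole (z := x) (η := 46 / 1000) (B := 24 / 10000)
    (by norm_num) (by
      intro N h4 h5
      by_contra h
      push Not at h
      nlinarith [mul_nonneg (sub_nonneg.2 h.le) (sub_nonneg.2 h4)]) (by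
      intro e he
      have := h1 e he
      rw [add_comm x e]
      linarith)
  obtain ⟨t', s', D', ht', hs', hw, hD'⟩ := hole (z := w) (η := 925 / 10000) (B := 107 / 10000)
    (by norm_num) (by
      intro N h4 h5
      by_contra h
      push Not at h
      nlinarith [mul_nonneg (sub_nonneg.2 h.le) (sub_nonneg.2 h4)]) (by
      intro e he
      have h4 := h2 e he
      rw [add_comm w e]
      by_contra h
      push Not at h
      have h5 : a * normSq (e + w) < a * ((1 - 925 / 10000) / 3) :=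
        mul_lt_mul_of_pos_left (by linarith) ha
      nlinarith)
  obtain ⟨t₂, σ, D₂, ht₂, hσ, hy, hD₂⟩ := near3 (y - (x - t) * t')
  -- the choice of `z₁`
  obtain ⟨j, v, r, hv, hv1, hv2, hr, hvr⟩ : ∃ (j : Fin 3) (v r : ℂ), IsEis v ∧ normSq v ≤ 1 ∧
      lam * v = om ^ (j : ℕ) - 1 ∧ IsEis r ∧ (σ : ℂ) + s * s' * v = lam * r := by
    have e2 := om_sq
    have hss : ((s * s' : ℤ) : ℂ) * ((s * s' : ℤ) : ℂ) = 1 := by
      have : (s * s') * (s * s') = 1 := by
        have h4 := sq_pm hs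
        have h5 := sq_pm hs'
        calc (s * s') * (s * s') = (s * s) * (s' * s') := by ring
          _ = 1 := by rw [h4, h5, one_mul]
      exact_mod_cast this
    push_cast at hss
    have hcase : σ = 0 ∨ σ = s * s' ∨ σ = -(s * s') := by
      rcases hσ with rfl | rfl | rfl <;> rcases hs with rfl | rfl <;> rcases hs' with rfl | rfl <;>
        norm_num
    rcases hcase with h4 | h4 | h4
    · obtain ⟨v, k1, k2, k3, k4, -, -⟩ := three 0
      refine ⟨0, v, 0, k1, k2, k3, IsEis.zero, ?_⟩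
      rw [h4, k4 rfl]; simp
    · obtain ⟨v, k1, k2, k3, -, k4, -⟩ := three 1
      refine ⟨1, v, s * s' * (-om), k1, k2, k3,
        ((IsEis.intCast s).mul (IsEis.intCast s')).mul IsEis.omega.neg, ?_⟩
      rw [h4, k4 rfl]
      push_cast
      unfold lam
      linear_combination 2 * s * s' * e2
    · obtain ⟨v, k1, k2, k3, -, -, k4⟩ := three 2
      refine ⟨2, v, s * s' * (1 + om), k1, k2, k3,
        ((IsEis.intCast s).mul (IsEis.intCast s')).mul (IsEis.one.add IsEis.omega), ?_⟩
      rw [h4, k4 rfl]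
      push_cast
      unfold lam
      linear_combination (-2) * s * s' * e2
  have hz₁ : IsEis (-t' + s' * v) := ht'.neg.add ((IsEis.intCast s').mul hv)
  have hz₀ : IsEis (-(t * (-t' + s' * v)) - t₂ - r) := ((ht.mul hz₁).neg.sub ht₂).sub hr
  have h4 := h3 _ _ hz₀ hz₁
  have e1 : lam * (-(t * (-t' + s' * v)) - t₂ - r + x * (-t' + s' * v) + y) =
      D₂ + D * (s' * v) := by
    linear_combination hy + s' * v * hx + hvr
  have e3 : lam * (-t' + s' * v + w) = s' * om ^ (j : ℕ) + D' := by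
    linear_combination hw + s' * hv2
  have f1 : 3 * normSq (-(t * (-t' + s' * v)) - t₂ - r + x * (-t' + s' * v) + y) ≤
      11 / 10 * (1 / 3) + 11 * (24 / 10000) := by
    have g1 : 3 * normSq (-(t * (-t' + s' * v)) - t₂ - r + x * (-t' + s' * v) + y) =
        normSq (D₂ + D * (s' * v)) := by
      rw [← e1, normSq_mul, normSq_lam]
    have g2 : normSq (D * (s' * v)) ≤ 24 / 10000 := by
      rw [normSq_mul, normSq_mul, normSq_pm hs', one_mul]
      calc normSq D * normSq v ≤ normSq D * 1 :=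
            mul_le_mul_of_nonneg_left hv1 (normSq_nonneg _)
        _ ≤ 24 / 10000 := by linarith
    have g3 := normSq_add_le D₂ (D * (s' * v))
    linarith
  have f2 : 3 * normSq (-t' + s' * v + w) ≤ 11 / 10 * 1 + 11 * (107 / 10000) := by
    have g1 : 3 * normSq (-t' + s' * v + w) = normSq (s' * om ^ (j : ℕ) + D') := by
      rw [← e3, normSq_mul, normSq_lam]
    have g2 : normSq ((s' : ℂ) * om ^ (j : ℕ)) = 1 := by
      have h2 : normSq om = 1 := by
        have := normSq_ab 0 1
        push_cast at this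
        rw [one_mul, zero_add] at this
        rw [this]; norm_num
      rw [normSq_mul, normSq_pm hs', map_pow, h2, one_pow, one_mul]
    have g3 := normSq_add_le ((s' : ℂ) * om ^ (j : ℕ)) D'
    linarith
  have f3 : a * normSq (-t' + s' * v + w) ≤ 682 / 1000 * normSq (-t' + s' * v + w) :=
    mul_le_mul_of_nonneg_right ha2 (normSq_nonneg _)
  linarith

/-- The inequality `q r ≥ (31/100) p²`. -/
theorem triple {p q r : ℝ} {x w y : ℂ} (hp : 0 < p) (hq : 0 < q) (hr : 0 < r)
    (h1 : ∀ z, IsEis z → p ≤ p * normSq (z + x) + q)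
    (h2 : ∀ z, IsEis z → q ≤ q * normSq (z + w) + r)
    (h3 : ∀ z₀ z₁, IsEis z₀ → IsEis z₁ →
      p ≤ p * normSq (z₀ + x * z₁ + y) + q * normSq (z₁ + w) + r) :
    31 / 100 * (p * p) ≤ q * r := by
  have h4 := triple1 (a := q / p) (b := r / p) (x := x) (w := w) (y := y) (by positivity)
    (by positivity) (fun z hz => ?_) (fun z hz => ?_) (fun z₀ z₁ hz₀ hz₁ => ?_)
  · have h5 : q / p * (r / p) = q * r / (p * p) := by field_simp
    rwa [h5, le_div_iff₀ (by positivity)] at h4
  · have h5 := h1 z hz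
    have h6 : normSq (z + x) + q / p = (p * normSq (z + x) + q) / p := by field_simp
    rw [h6, le_div_iff₀ hp, one_mul]
    exact h5
  · have h5 := h2 z hz
    have h6 : q / p * normSq (z + w) + r / p = (q * normSq (z + w) + r) / p := by field_simp
    rw [h6]
    exact div_le_div_of_nonneg_right h5 hp.le
  · have h5 := h3 z₀ z₁ hz₀ hz₁
    have h6 : normSq (z₀ + x * z₁ + y) + q / p * normSq (z₁ + w) + r / p =
        (p * normSq (z₀ + x * z₁ + y) + q * normSq (z₁ + w) + r) / p := by field_simp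
    rw [h6, le_div_iff₀ hp, one_mul]
    exact h5

end Pool.Agent.T6.H41.K5
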