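import Pool.Agent.T6.H41.K5.Hex
import Pool.Agent.R895.LemA

/-!
# Bases which are reduced in the sense of Hermite, Korkine and Zolotareff
-/

set_option autoImplicit false

namespace Pool.Agent.T6.H41.K5

open Matrix
open Pool.Agent.R895

variable {n : ℕ}

/-- A lattice vector one of whose coordinates is `1` is a column of a unimodular matrix. -/
theorem exists_col {v : Fin (n + 1) → ℂ} (hv : IsLat v) {k : Fin (n + 1)} (hk : v k = 1) :
    ∃ P, IsGL P ∧ v = P *ᵥ (Pi.single 0 1) := by
  -- the transvection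
  set u : Fin (n + 1) → ℂ := v - Pi.single k 1 with hu
  have huk : u k = 0 := by rw [hu, Pi.sub_apply, hk, Pi.single_eq_same, sub_self]
  have hul : ∀ i, IsEis (u i) := by
    intro i
    rw [hu, Pi.sub_apply]
    exact (hv i).sub (isLat_single k i)
  set T : Matrix (Fin (n + 1)) (Fin (n + 1)) ℂ := 1 + vecMulVec u (Pi.single k 1) with hT
  set T' : Matrix (Fin (n + 1)) (Fin (n + 1)) ℂ := 1 - vecMulVec u (Pi.single k 1) with hT'
  have hN : vecMulVec u (Pi.single k 1 : Fin (n + 1) → ℂ) *
      vecMulVec u (Pi.single k 1 : Fin (n + 1) → ℂ) = 0 := by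
    rw [vecMulVec_mul_vecMulVec]
    simp [huk]
  have hNe : ∀ i j, IsEis (vecMulVec u (Pi.single k 1 : Fin (n + 1) → ℂ) i j) := by
    intro i j
    rw [vecMulVec_apply]
    exact (hul i).mul (isLat_single k j)
  have h1e : ∀ i j, IsEis ((1 : Matrix (Fin (n + 1)) (Fin (n + 1)) ℂ) i j) := IsGL.one.ent
  have hTGL : IsGL T := by
    refine ⟨fun i j => ?_, T', fun i j => ?_, ?_, ?_⟩
    · rw [hT, Matrix.add_apply]
      exact (h1e i j).add (hNe i j)
    · rw [hT', Matrix.sub_apply]
      exact (h1e i j).sub (hNe i j)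
    · rw [hT, hT']
      calc (1 + vecMulVec u (Pi.single k 1)) * (1 - vecMulVec u (Pi.single k 1)) =
          1 - vecMulVec u (Pi.single k 1) * vecMulVec u (Pi.single k 1) := by noncomm_ring
        _ = 1 := by rw [hN, sub_zero]
    · rw [hT, hT']
      calc (1 - vecMulVec u (Pi.single k 1)) * (1 + vecMulVec u (Pi.single k 1)) =
          1 - vecMulVec u (Pi.single k 1) * vecMulVec u (Pi.single k 1) := by noncomm_ring
        _ = 1 := by rw [hN, sub_zero]
  -- the swap
  set P : Matrix (Fin (n + 1)) (Fin (n + 1)) ℂ :=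
    (Equiv.swap (0 : Fin (n + 1)) k).toPEquiv.toMatrix with hP
  have hPe : ∀ i j, IsEis (P i j) := by
    intro i j
    rw [hP, PEquiv.toMatrix_apply]
    split_ifs
    · exact IsEis.one
    · exact IsEis.zero
  have hPP : P * P = 1 := by
    rw [hP, ← PEquiv.toMatrix_trans]
    have : (Equiv.swap (0 : Fin (n + 1)) k).toPEquiv.trans
        (Equiv.swap (0 : Fin (n + 1)) k).toPEquiv = PEquiv.refl _ := by
      rw [← Equiv.toPEquiv_trans]
      have : (Equiv.swap (0 : Fin (n + 1)) k).trans (Equiv.swap 0 k) =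
          Equiv.refl _ := by
        ext i
        simp
      rw [this]
      exact Equiv.toPEquiv_refl
    rw [this, PEquiv.toMatrix_refl]
  have hPGL : IsGL P := ⟨hPe, P, hPe, hPP, hPP⟩
  have hPv : P *ᵥ (Pi.single 0 1) = Pi.single k 1 := by
    ext i
    have hiff : (0 : Fin (n + 1)) = Equiv.swap (0 : Fin (n + 1)) k i ↔ i = k := by
      constructor
      · intro h
        have := congrArg (Equiv.swap (0 : Fin (n + 1)) k) h
        rw [Equiv.swap_apply_left, Equiv.swap_apply_self] at this
        exact this.symm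
      · rintro rfl
        rw [Equiv.swap_apply_right]
    rw [mulVec_single_one, col_apply, hP, PEquiv.toMatrix_apply, Pi.single_apply]
    simp only [Equiv.toPEquiv_apply, Option.mem_def, Option.some_inj]
    by_cases hi : i = k
    · rw [if_pos (hiff.2 hi).symm, if_pos hi]
    · rw [if_neg (fun h => hi (hiff.1 h.symm)), if_neg hi]
  refine ⟨T * P, hTGL.mul hPGL, ?_⟩
  rw [← mulVec_mulVec, hPv, hT, add_mulVec, one_mulVec, vecMulVec_mulVec]
  ext i
  simp [hu]

/-- **Reduction theory.** The first basis vector is a unimodular vector with the smallest possible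
value of the form, and the same holds for the projected forms. -/
theorem exists_hkz : ∀ (n : ℕ) (M : Matrix (Fin n) (Fin n) ℂ), Pd M →
    ∃ (g : Matrix (Fin n) (Fin n) ℂ) (x : Fin n → Fin n → ℂ) (m : Fin n → ℝ), IsGL g ∧
      (∀ i, 0 < m i) ∧
      (∀ i (v : Fin n → ℂ), IsLat v → (∃ k, i ≤ k ∧ v k = 1) →
        m i ≤ ∑ j, if i ≤ j then m j * Complex.normSq (star (x j) ⬝ᵥ v) else 0) ∧
      (∀ i, x i i = 1) ∧ (∀ i j, j < i → x i j = 0) ∧
      gᴴ * M * g = ∑ i, (m i : ℂ) • vecMulVec (x i) (star (x i)) := by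
  intro n
  induction n with
  | zero =>
    intro M _
    exact ⟨1, fun i => i.elim0, fun i => i.elim0, IsGL.one, fun i => i.elim0, fun i => i.elim0,
      fun i => i.elim0, fun i => i.elim0, by ext i; exact i.elim0⟩
  | succ n ih =>
    intro M hM
    -- a minimal unimodular column
    obtain ⟨v, ⟨g₁, hg₁, rfl⟩, hmin⟩ := hM.exists_min
      (A := {v | ∃ g, IsGL g ∧ v = g *ᵥ (Pi.single 0 1)}) (by
        rintro _ ⟨g, hg, rfl⟩
        exact hg.mulVec (isLat_single 0)) ⟨_, 1, IsGL.one, rfl⟩
    obtain ⟨a, x₀, M', ha, hx₀, haq, hM', hdec⟩ := (hM.conj hg₁).schur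
    obtain ⟨g', x', m', hg', hm', hkz, hd, hz, hM'd⟩ := ih M' hM'
    set c : Fin n → ℂ := fun j => 0 with hc
    set G := up c g' with hG
    have hGL : IsGL G := up_isGL _ _ (fun j => IsEis.zero) hg'
    set y : Fin (n + 1) → ℂ := Gᴴ *ᵥ x₀ with hy
    have hy0 : y 0 = 1 := by
      simp [hy, hG, mulVec, dotProduct, Fin.sum_univ_succ, hx₀]
    have hmat : (g₁ * G)ᴴ * M * (g₁ * G) = ∑ i : Fin (n + 1),
        (((Fin.cons a m' : Fin (n + 1) → ℝ) i : ℝ) : ℂ) •
          vecMulVec ((Fin.cons y (fun i => Fin.cons 0 (x' i)) : Fin (n + 1) → Fin (n + 1) → ℂ) i)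
            (star ((Fin.cons y (fun i => Fin.cons 0 (x' i)) : Fin (n + 1) → Fin (n + 1) → ℂ) i)) := by
      have h1 : (g₁ * G)ᴴ * M * (g₁ * G) = Gᴴ * (g₁ᴴ * M * g₁) * G := by
        rw [conjTranspose_mul]
        simp only [Matrix.mul_assoc]
      rw [h1, hdec, Matrix.mul_add, Matrix.add_mul, up_low, hM'd, low_sum, Fin.sum_univ_succ]
      simp only [Fin.cons_zero, Fin.cons_succ]
      congr 1
      · rw [Matrix.mul_smul, Matrix.smul_mul, mul_vecMulVec, vecMulVec_mul, hy, star_mulVec,
          conjTranspose_conjTranspose]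
      · exact Finset.sum_congr rfl fun i _ => low_vec _ _
    refine ⟨g₁ * G, Fin.cons y (fun i => Fin.cons 0 (x' i)), Fin.cons a m', hg₁.mul hGL, ?_, ?_,
      ?_, ?_, hmat⟩
    · intro i
      refine Fin.cases ?_ (fun i => ?_) i
      · exact ha
      · exact hm' i
    · intro i
      refine Fin.cases ?_ (fun i => ?_) i
      · rintro v hv ⟨k, -, hk⟩
        obtain ⟨P, hP, hPv⟩ := exists_col hv hk
        have h1 := hmin _ ⟨g₁ * G * P, (hg₁.mul hGL).mul hP, rfl⟩
        rw [← mulVec_mulVec, ← hPv, ← q_conj M (g₁ * G), hmat, q_dec, ← q_conj M g₁, ← haq] at h1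
        simpa using h1
      · rintro v hv ⟨k, hik, hk⟩
        have hk0 : k ≠ 0 := by
          rintro rfl
          exact absurd hik (by simp)
        obtain ⟨k, rfl⟩ := Fin.exists_succ_eq.2 hk0
        have h1 := hkz i (fun l => v l.succ) (fun l => hv l.succ) ⟨k, by simpa using hik, hk⟩
        rw [Fin.sum_univ_succ]
        have h2 : ∀ j : Fin n, star (Fin.cons 0 (x' j) : Fin (n + 1) → ℂ) ⬝ᵥ v =
            star (x' j) ⬝ᵥ (fun l => v l.succ) := by
          intro j
          simp [dotProduct, Fin.sum_univ_succ]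
        simp only [Fin.cons_succ, h2, Fin.succ_le_succ_iff]
        have h3 : ¬ i.succ ≤ 0 := by simp
        rw [if_neg h3, zero_add]
        exact h1
    · intro i
      refine Fin.cases ?_ (fun i => ?_) i
      · exact hy0
      · simp only [Fin.cons_succ]
        exact hd i
    · intro i j hij
      refine Fin.cases (fun hij => ?_) (fun i => ?_) i hij
      · exact absurd hij (by simp)
      · intro hij
        refine Fin.cases (fun hij => ?_) (fun j => ?_) j hij
        · simp only [Fin.cons_succ, Fin.cons_zero]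
        · intro hij
          simp only [Fin.cons_succ]
          exact hz i j (by simpa using hij)

end Pool.Agent.T6.H41.K5
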