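import Pool.Agent.T6.H41.K5.LemA

/-!
# The key inequality, in rank at most five
-/

set_option autoImplicit false

namespace Pool.Agent.T6.H41.K5

open Matrix
open Pool.Agent.R895 hiding V_ge V_ge' comb lemA_pd lemA_pd' lemA lemA'

variable {n : ℕ}

theorem lemA_pd (hn : n ≤ 5) {M H : Matrix (Fin n) (Fin n) ℂ} (hM : Pd M) (hH : Pd H) {h : ℝ}
    (hh : 0 < h) (hmin : ∀ w, IsLat w → w ≠ 0 → h ≤ q H w) {J : Set (Fin n → ℂ)} (hJ : IsSub J)
    (hne : ∃ v, IsLat v ∧ v ∉ J) (hMJ : ∀ v, IsLat v → v ∉ J → 1 ≤ q M v) :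
    h ≤ (M * H).trace.re := by
  obtain ⟨g, x, m, hg, hm, hch, hd, hz, hsz, hdec⟩ := exists_red n M hM
  obtain ⟨g', h1, h2, h3⟩ := hg.inv
  have hg' : IsGL g' := ⟨h1, g, hg.ent, h3, h2⟩
  rw [trace_dec h2 hdec H]
  set K := g' * H * g'ᴴ with hK
  have hKe : K = g'ᴴᴴ * H * g'ᴴ := by rw [conjTranspose_conjTranspose]
  have hKpd : Pd K := by rw [hKe]; exact hH.conj hg'.conjTranspose
  have hKmin : ∀ w, IsLat w → w ≠ 0 → h ≤ q K w := by
    intro w hw hw0
    rw [hKe, q_conj]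
    exact hmin _ (hg'.conjTranspose.mulVec hw) (hg'.conjTranspose.mulVec_ne hw0)
  have h4 : ∑ i, m i * hs n K i ≤ ∑ i, m i * q K (x i) :=
    Finset.sum_le_sum fun i _ => mul_le_mul_of_nonneg_left (hs_le n K hKpd x hd hz i) (hm i).le
  refine le_trans ?_ h4
  -- a basis vector outside `J`
  obtain ⟨k, hk⟩ : ∃ k, g *ᵥ (Pi.single k 1) ∉ J := by
    by_contra hcon
    push Not at hcon
    obtain ⟨v, hv, hvJ⟩ := hne
    apply hvJ
    have h5 : v = ∑ k, (g' *ᵥ v) k • (g *ᵥ (Pi.single k 1)) := by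
      have h6 : g' *ᵥ v = ∑ k, (g' *ᵥ v) k • (Pi.single k 1 : Fin n → ℂ) := by
        ext i
        simp [Finset.sum_apply, Pi.single_apply]
      have h7 : g *ᵥ (g' *ᵥ v) = v := by rw [mulVec_mulVec, h2, one_mulVec]
      calc v = g *ᵥ (g' *ᵥ v) := h7.symm
        _ = g *ᵥ (∑ k, (g' *ᵥ v) k • (Pi.single k 1 : Fin n → ℂ)) := by rw [← h6]
        _ = _ := by
            rw [mulVec_sum]
            exact Finset.sum_congr rfl fun k _ => mulVec_smul _ _ _
    rw [h5]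
    exact hJ.sum _ _ fun k _ => hJ.smul _ (hg'.mulVec hv k) _ (hcon k)
  have h5 := hMJ _ (hg.mulVec (isLat_single k)) hk
  rw [q_single M g x m hdec k] at h5
  have h6 : ∑ i, m i * Complex.normSq (x i k) ≤
      m k + 1 / 3 * ∑ i ∈ Finset.univ.filter (· < k), m i := by
    have h7 : ∀ i, m i * Complex.normSq (x i k) ≤
        (if i = k then m k else 0) + (if i < k then 1 / 3 * m i else 0) := by
      intro i
      rcases lt_trichotomy i k with h | h | h
      · rw [if_neg h.ne, if_pos h, zero_add, mul_comm]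
        exact mul_le_mul_of_nonneg_right (hsz i k h) (hm i).le
      · rw [h, hd, if_pos rfl, if_neg (lt_irrefl _)]
        simp
      · rw [hz i k h, if_neg h.ne', if_neg (not_lt.2 h.le)]
        simp
    refine (Finset.sum_le_sum fun i _ => h7 i).trans (le_of_eq ?_)
    rw [Finset.sum_add_distrib, Finset.sum_ite_eq' Finset.univ k (fun _ => m k),
      if_pos (Finset.mem_univ _), Finset.mul_sum, Finset.sum_filter]
  have h8 := comb hn hKpd hh hKmin m hm hch k
  refine le_trans ?_ h8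
  nlinarith [h5.trans h6]

/-- The first coefficient is at least `1` if the form is at least `1` on all lattice vectors. -/
theorem lemA_pd' (hn0 : 2 ≤ n) (hn : n ≤ 5) {M H : Matrix (Fin n) (Fin n) ℂ} (hM : Pd M)
    (hH : Pd H) {h : ℝ} (hh : 0 < h) (hmin : ∀ w, IsLat w → w ≠ 0 → h ≤ q H w)
    (hM1 : ∀ v, IsLat v → v ≠ 0 → 1 ≤ q M v) : 101 / 100 * h ≤ (M * H).trace.re := by
  obtain ⟨g, x, m, hg, hm, hch, hd, hz, hsz, hdec⟩ := exists_red n M hM
  obtain ⟨g', h1, h2, h3⟩ := hg.inv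
  have hg' : IsGL g' := ⟨h1, g, hg.ent, h3, h2⟩
  rw [trace_dec h2 hdec H]
  set K := g' * H * g'ᴴ with hK
  have hKe : K = g'ᴴᴴ * H * g'ᴴ := by rw [conjTranspose_conjTranspose]
  have hKpd : Pd K := by rw [hKe]; exact hH.conj hg'.conjTranspose
  have hKmin : ∀ w, IsLat w → w ≠ 0 → h ≤ q K w := by
    intro w hw hw0
    rw [hKe, q_conj]
    exact hmin _ (hg'.conjTranspose.mulVec hw) (hg'.conjTranspose.mulVec_ne hw0)
  have h4 : ∑ i, m i * hs n K i ≤ ∑ i, m i * q K (x i) :=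
    Finset.sum_le_sum fun i _ => mul_le_mul_of_nonneg_left (hs_le n K hKpd x hd hz i) (hm i).le
  refine le_trans ?_ h4
  have hV := V_ge' hn0 hn hKpd hh hKmin
  -- the coefficients are at least `(2 / 3) ^ i`
  have key : ∀ (k : ℕ) (i : Fin n), (i : ℕ) = k → (2 / 3 : ℝ) ^ k ≤ m i := by
    intro k
    induction k with
    | zero =>
      intro i hi
      have h2 := hM1 _ (hg.mulVec (isLat_single i)) (hg.mulVec_ne (single_ne i))
      rw [q_single M g x m hdec i, Finset.sum_eq_single i] at h2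
      · rw [hd] at h2
        simpa using h2
      · intro j _ hj
        rw [hz j i (by
          rw [Fin.lt_def, hi]
          exact Nat.pos_of_ne_zero fun h => hj (Fin.ext (by rw [h, hi])))]
        simp
      · intro h; exact absurd (Finset.mem_univ _) h
    | succ k ih =>
      intro i hi
      have hk : k < n := by have := i.2; omega
      have h2 := ih ⟨k, hk⟩ rfl
      have h3 := hch ⟨k, hk⟩ i (by simp [hi])
      rw [pow_succ]
      linarith
  refine hV.trans (Finset.sum_le_sum fun i _ => ?_)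
  exact mul_le_mul_of_nonneg_right (key _ i rfl) (hs_pos n K hKpd i).le

/-- **The key inequality.** -/
theorem lemA (hn : n ≤ 5) {M H : Matrix (Fin n) (Fin n) ℂ} (hM : Psd M) (hH : Pd H) {h : ℝ}
    (hh : 0 < h) (hmin : ∀ w, IsLat w → w ≠ 0 → h ≤ q H w) {J : Set (Fin n → ℂ)} (hJ : IsSub J)
    (hne : ∃ v, IsLat v ∧ v ∉ J) (hMJ : ∀ v, IsLat v → v ∉ J → 1 ≤ q M v) :
    h ≤ (M * H).trace.re := by
  refine trace_lim fun ε hε => ?_
  obtain ⟨h1, h2⟩ := hM.add_one hε
  refine lemA_pd hn h1 hH hh hmin hJ hne fun v hv hvJ => ?_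
  rw [h2]
  have h3 := hMJ v hv hvJ
  have h4 : 0 ≤ ∑ i, Complex.normSq (v i) := Finset.sum_nonneg fun i _ => Complex.normSq_nonneg _
  nlinarith

theorem lemA' (hn0 : 2 ≤ n) (hn : n ≤ 5) {M H : Matrix (Fin n) (Fin n) ℂ} (hM : Psd M)
    (hH : Pd H) {h : ℝ} (hh : 0 < h) (hmin : ∀ w, IsLat w → w ≠ 0 → h ≤ q H w)
    (hM1 : ∀ v, IsLat v → v ≠ 0 → 1 ≤ q M v) : 101 / 100 * h ≤ (M * H).trace.re := by
  refine trace_lim fun ε hε => ?_
  obtain ⟨h1, h2⟩ := hM.add_one hε
  refine lemA_pd' hn0 hn h1 hH hh hmin fun v hv hv0 => ?_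
  rw [h2]
  have h3 := hM1 v hv hv0
  have h4 : 0 ≤ ∑ i, Complex.normSq (v i) := Finset.sum_nonneg fun i _ => Complex.normSq_nonneg _
  nlinarith

end Pool.Agent.T6.H41.K5
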