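import Pool.Agent.T6.H41.K5.LemB
import Pool.Agent.R895.Abs

/-!
# The cone conjecture for blow-ups of torus quotients, in rank at most five

The proofs are those of `Pool.Agent.R895.Gen`, `Cls`, `NefC` and `Main`, with the key inequality of
`Pool.Agent.T6.H41.K5.LemB` for forms of rank at most five.
-/

set_option autoImplicit false

namespace Pool.Agent.T6.H41.K5

open Matrix hiding IsHermitian
open Filter Topology
open Pool.Agent.R895 hiding V_ge V_ge' comb lemA_pd lemA_pd' lemA lemA' RC_of_lt RC_zero semiample_thB section_thB semiample_cls effective_cls nef_of_int eff_of_int Cp_le nefCone_eq mem_Cp_iff core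

section gen

open Matrix (IsHermitian)

variable {n : ℕ} {J : Set (Fin n → ℂ)}

/-- The main decomposition theorem. -/
theorem RC_of_lt (hn : n ≤ 5) {H : Matrix (Fin n) (Fin n) ℂ} (hH : Pd H)
    (hHe : ∀ i j, IsEis (H i j)) {b h : ℝ} (hb : 0 ≤ b) (hbh : b < h)
    (hmin : ∀ w, IsLat w → w ≠ 0 → h ≤ q H w) (hJ : IsSub J) (hne : ∃ v, IsLat v ∧ v ∉ J) :
    ((fun i j => H i j : Fin n → Fin n → ℂ), b) ∈ RC J := by
  have hh : 0 < h := lt_of_le_of_lt hb hbh
  set δ : ℝ := (h - b) / (2 * h) with hδ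
  have hδ0 : 0 < δ := div_pos (by linarith) (by linarith)
  have hδ1 : δ < 1 := by
    rw [hδ, div_lt_one (by linarith)]
    linarith
  have hδh : (1 - δ) * h = (h + b) / 2 := by
    rw [hδ]
    field_simp
    ring
  obtain ⟨k, hk, hpd, hq⟩ := hH.shrink hδ0 hδ1
  refine mem_RC hH.1 hHe hk hpd (g := (h + b) / 2) (by linarith) fun M hM hM1 => ?_
  refine lemA hn hM hpd (by linarith) (fun w hw hw0 => ?_) hJ hne hM1
  rw [← hδh]
  exact le_trans (mul_le_mul_of_nonneg_left (hmin w hw hw0) (by linarith)) (hq w)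

/-- The decomposition theorem for `J = 0`, where equality is allowed. -/
theorem RC_zero (hn0 : 2 ≤ n) (hn : n ≤ 5) {H : Matrix (Fin n) (Fin n) ℂ} (hH : Pd H)
    (hHe : ∀ i j, IsEis (H i j)) {h : ℝ} (hh : 0 < h)
    (hmin : ∀ w, IsLat w → w ≠ 0 → h ≤ q H w) :
    ((fun i j => H i j : Fin n → Fin n → ℂ), h) ∈ RC {0} := by
  obtain ⟨k, hk, hpd, hq⟩ := hH.shrink (δ := 1 / 202) (by norm_num) (by norm_num)
  refine mem_RC hH.1 hHe hk hpd (g := 201 / 200 * h) (by linarith) fun M hM hM1 => ?_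
  have h1 := lemA' hn0 hn hM hpd (h := 201 / 202 * h) (by linarith) (fun w hw hw0 => by
    refine le_trans ?_ (hq w)
    have := hmin w hw hw0
    linarith) (fun v hv hv0 => hM1 v hv hv0)
  linarith

end gen

open Pool.Agent.W594.SYZ2 (IsHermitian)
open Pool.Agent.W594.SYZ2.TQ (h_add_right h_smul_right h_zero_left h_zero_right)
open Pool.Agent.Y167 (CData cone AffGrp Pol Cp cone_ind cone_add cone_smul cone_sum cone_le
  mem_cone_self mem_cone_of_sum zero_mem_cone cone_cut cone_image cone_mono)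
open Pool.Agent.Y167.CC (LinGrp Preserves IsFundDomain)

section cls

variable {ι : Type*} [Fintype ι] {r m : ℕ} {ρ : Fin r → ι} {h : (Fin r → ℂ) → (Fin r → ℂ) → ℂ}

/-- The line bundle given by a form which is large on the lattice is semiample. -/
theorem semiample_thB [Nonempty ι] (hr : r ≤ 5) (D : Dat h) (b : ℕ)
    (hp : ∀ v, v ≠ 0 → 0 < (h v v).re) (hb : ∀ v, Lat v → v ≠ 0 → (b : ℝ) < (h v v).re) :
    (thB m (exH_herm (ρ := ρ) D.herm b) (exH_int D.int b) b).IsSemiample := by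
  classical
  have hpsd : Psd (Matrix.of (mx h)) := (D.pd hp).psd
  have hmin : ∀ w, IsLat w → w ≠ 0 → (b : ℝ) + 1 ≤ q (Matrix.of (mx h)) w := by
    intro w hw hw0
    rw [mx_q D.herm]
    obtain ⟨n, hn⟩ := D.val (lat_star hw)
    have h1 := hb (star w) (lat_star hw) (by rwa [star_ne_zero])
    rw [hn] at h1 ⊢
    have h2 : (b : ℤ) < n := by exact_mod_cast h1
    have h3 : (b : ℤ) + 1 ≤ n := h2
    exact_mod_cast h3
  have key1 : ∀ {J : Set (ι → ℂ)} {J' : Set (Fin r → ℂ)}, IsSub J' →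
      (∃ l : Fin r → ℂ, IsLat l ∧ l ∉ J') → (∀ l, ext ρ l ∈ J → l ∈ J') →
      Dec (exH ρ b h) b J := by
    intro J J' hJ' hne hJ
    refine dec_of_RC (exA_mem_of b (RC.lift (J' := J') ?_ hJ)) (exH_eq D.herm b)
    exact RC_of_lt hr (D.pd hp) (mx_eis D.int) (Nat.cast_nonneg b) (lt_add_one _) hmin hJ' hne
  have key2 : ∀ {J : Set (ι → ℂ)} {i : ι}, i ∈ co ρ → Pi.single i 1 ∉ J →
      Dec (exH ρ b h) b J := by
    intro J i hi hJ
    refine dec_of_RC (exA_mem_of' le_rfl (RC.lift (J' := Set.univ) ?_ fun _ _ => Set.mem_univ _)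
      hi ?_) (exH_eq D.herm b)
    · exact RC_psd hpsd (mx_eis D.int)
    · convert hJ
  refine semiample_of_dec _ _ b (fun v hv => ?_) fun u hu => ?_
  · by_cases h1 : Lat (v ∘ ρ)
    · obtain ⟨i, hi⟩ : ∃ i, ¬IsEis (v i) := by
        by_contra hcon
        push Not at hcon
        exact hv hcon
      refine key2 (i := i) ?_ ?_
      · rw [mem_co]
        rintro a rfl
        exact hi (h1 a)
      · show ¬IsEis (Pi.single i 1 ⬝ᵥ v)
        rwa [single_dot]
    · refine key1 (isSub_eis (v ∘ ρ)) ?_ fun l hl => ?_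
      · obtain ⟨l, hl1, hl2⟩ := exists_single h1
        exact ⟨l, hl1, hl2⟩
      · have : IsEis (ext ρ l ⬝ᵥ v) := hl
        rw [ext_dot] at this
        exact this
  · by_cases h1 : u ∘ ρ = 0
    · obtain ⟨i, hi⟩ := Function.ne_iff.1 hu
      refine key2 (i := i) ?_ ?_
      · rw [mem_co]
        rintro a rfl
        exact hi (congrFun h1 a)
      · show ¬(Pi.single i 1 ⬝ᵥ u = 0)
        rw [single_dot]
        exact hi
    · refine key1 (isSub_zero (u ∘ ρ)) ?_ fun l hl => ?_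
      · obtain ⟨l, hl1, hl2⟩ := exists_single' h1
        exact ⟨l, hl1, hl2⟩
      · have : ext ρ l ⬝ᵥ u = 0 := hl
        rw [ext_dot] at this
        exact this

theorem section_thB [Nonempty ι] (hρ : Function.Injective ρ) (hr0 : 2 ≤ r) (hr : r ≤ 5)
    (D : Dat h) (b : ℕ)
    (hp : ∀ v, v ≠ 0 → 0 < (h v v).re) (hb : ∀ v, Lat v → v ≠ 0 → (b : ℝ) ≤ (h v v).re) :
    ∃ N : ℕ, 1 ≤ N ∧ ∃ s,
      ((thB m (exH_herm (ρ := ρ) D.herm b) (exH_int D.int b) b).pow N).IsSection s ∧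
        ∃ v, s v ≠ 0 := by
  refine section_of_dec _ _ b (dec_of_RC (exA_mem_of b (RC.lift (J' := {0}) ?_ ?_))
    (exH_eq D.herm b))
  · rcases Nat.eq_zero_or_pos b with rfl | hb0
    · rw [Nat.cast_zero]
      exact RC_psd (D.pd hp).psd (mx_eis D.int)
    · refine RC_zero hr0 hr (D.pd hp) (mx_eis D.int) (by exact_mod_cast hb0) fun w hw hw0 => ?_
      rw [mx_q D.herm]
      exact hb (star w) (lat_star hw) (by rwa [star_ne_zero])
  · intro l hl
    have hl' : ext ρ l = 0 := hl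
    show l = 0
    ext a
    rw [← ext_apply hρ l a, hl']
    rfl

variable {j : (Fin r → ℂ) →ₗ[ℂ] (ι → ℂ)}

theorem semiample_cls [Nonempty ι] (hj : IsExt ρ j) (hρ : Function.Injective ρ) (hr : r ≤ 5)
    (D : Dat h) (b : ℕ) (hp : ∀ v, v ≠ 0 → 0 < (h v v).re)
    (hb : ∀ v, Lat v → v ≠ 0 → (b : ℝ) < (h v v).re) {y : N1 (kum ι m) j}
    (h1 : ∀ u w, frm y u w = 6 * h u w) (h2 : coef y = 6 * b) : y ∈ semiample (kum ι m) j := by
  refine ⟨_, ?_, semiample_thB (ρ := ρ) hr D b hp hb⟩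
  have h3 := isClass_thB (m := m) hj hρ D b b
  have h4 : (form y, coef y) = ((fun u w => 6 * kap * h u w, 6 * (b : ℝ)) :
      ((Fin r → ℂ) → (Fin r → ℂ) → ℂ) × ℝ) := by
    refine Prod.ext (funext fun u => funext fun w => ?_) h2
    show form y u w = 6 * kap * h u w
    rw [form_frm, h1]
    ring
  rw [h4]
  exact h3

theorem effective_cls [Nonempty ι] (hj : IsExt ρ j) (hρ : Function.Injective ρ) (hr0 : 2 ≤ r)
    (hr : r ≤ 5) (D : Dat h) (b : ℕ)
    (hb : (∀ v, v ≠ 0 → 0 < (h v v).re) ∧ (∀ v, Lat v → v ≠ 0 → (b : ℝ) ≤ (h v v).re) ∨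
      b = 0 ∧ ∀ v, 0 ≤ (h v v).re) {y : N1 (kum ι m) j}
    (h1 : ∀ u w, frm y u w = 6 * h u w) (h2 : coef y = 6 * b) :
    ∃ N : ℕ, 1 ≤ N ∧ (N : ℝ) • y ∈ effective (kum ι m) j := by
  have h4 : (form y, coef y) = ((fun u w => 6 * kap * h u w, 6 * (b : ℝ)) :
      ((Fin r → ℂ) → (Fin r → ℂ) → ℂ) × ℝ) := by
    refine Prod.ext (funext fun u => funext fun w => ?_) h2
    show form y u w = 6 * kap * h u w
    rw [form_frm, h1]
    ring
  have key : ∃ N : ℕ, 1 ≤ N ∧ ∃ s,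
      ((thB m (exH_herm (ρ := ρ) D.herm b) (exH_int D.int b) b).pow N).IsSection s ∧
        ∃ v, s v ≠ 0 := by
    rcases hb with ⟨hb1, hb2⟩ | ⟨rfl, hb⟩
    · exact section_thB hρ hr0 hr D b hb1 hb2
    · exact section_thB_zero D hb
  obtain ⟨N, hN, s, hs, h0⟩ := key
  refine ⟨N, hN, _, s, ?_, hs, h0⟩
  have h3 := isClass_pow (isClass_thB (m := m) hj hρ D b b) N
  rw [← h4] at h3
  exact h3

end cls

variable {ι : Type*} [Fintype ι] {r m : ℕ} {ρ : Fin r → ι}
  {j : (Fin r → ℂ) →ₗ[ℂ] (ι → ℂ)}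

/-- An integral class in the cone `Nf` is nef. -/
theorem nef_of_int [Nonempty ι] (hj : IsExt ρ j) (hρ : Function.Injective ρ) (hr : r ≤ 5)
    {a : N1 (kum ι m) j} (ha : a ∈ AddSubgroup.closure (integral (kum ι m) j))
    (haN : a ∈ Nf m j) : a ∈ nefCone (kum ι m) j := by
  obtain ⟨y₀, -, hy1, hy2⟩ := exists_y₀ m hj hρ
  obtain ⟨D, n, hn⟩ := eis_of_mem hj ha
  obtain ⟨b, hb⟩ := coef_nat haN hn
  refine mem_closed (y := y₀) isClosed_closure fun k => subset_closure ?_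
  set K : ℕ := k + 1 with hK
  have hKr : ((K : ℕ) : ℝ) = (k : ℝ) + 1 := by rw [hK]; push_cast; rfl
  have hK0 : (0 : ℝ) < K := by rw [hKr]; positivity
  have D' : Dat fun u w => (K : ℂ) * frm a u w + ((12 : ℕ) : ℂ) * std u w :=
    (D.natMul K).add (std_dat.natMul 12)
  have hre : ∀ v, ((K : ℂ) * frm a v v + ((12 : ℕ) : ℂ) * std v v).re =
      K * (frm a v v).re + 12 * (std v v).re := by
    intro v
    rw [Complex.add_re, re_natMul, re_natMul]
    norm_num
  have hsa : (6 : ℝ) • ((K : ℝ) • a + y₀) ∈ semiample (kum ι m) j := by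
    refine semiample_cls hj hρ hr D' (K * b + 6) (fun v hv => ?_) (fun v hv hv0 => ?_)
      (fun u w => ?_) ?_
    · rw [hre]
      have h1 := haN.1 v
      have h2 := std_pos hv
      positivity
    · rw [hre]
      have h1 := haN.2.2 v hv hv0
      rw [hb] at h1
      have h2 := one_le_std hv hv0
      push_cast
      nlinarith
    · rw [frm_smul, frm_add, frm_smul, hy1]
      push_cast
      ring
    · rw [coef_smul, coef_add, coef_smul, hb, hy2]
      push_cast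
      ring
  have h1 := span_smul (span_self hsa) (t := 1 / (6 * K)) (by positivity)
  have h2 : (1 / (6 * (K : ℝ))) • (6 : ℝ) • ((K : ℝ) • a + y₀) =
      a + (1 / ((k : ℝ) + 1)) • y₀ := by
    rw [← hKr, smul_smul, smul_add, smul_smul]
    have e1 : 1 / (6 * (K : ℝ)) * 6 * K = 1 := by field_simp
    have e2 : 1 / (6 * (K : ℝ)) * 6 = 1 / K := by field_simp
    rw [e1, e2, one_smul]
  rwa [h2] at h1

/-- An integral class in the cone `Nf` is effective. -/
theorem eff_of_int [Nonempty ι] (hj : IsExt ρ j) (hρ : Function.Injective ρ) (hr0 : 2 ≤ r)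
    (hr : r ≤ 5) {a : N1 (kum ι m) j} (ha : a ∈ AddSubgroup.closure (integral (kum ι m) j))
    (haN : a ∈ Nf m j) : a ∈ effCone (kum ι m) j := by
  obtain ⟨D, n, hn⟩ := eis_of_mem hj ha
  obtain ⟨b, hb⟩ := coef_nat haN hn
  have key : (∀ v, v ≠ 0 → 0 < (frm a v v).re) ∧
      (∀ v, Lat v → v ≠ 0 → (b : ℝ) ≤ (frm a v v).re) ∨ b = 0 ∧ ∀ v, 0 ≤ (frm a v v).re := by
    by_cases hpd : ∀ v, v ≠ 0 → 0 < (frm a v v).re
    · exact Or.inl ⟨hpd, fun v hv hv0 => by rw [← hb]; exact haN.2.2 v hv hv0⟩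
    · push Not at hpd
      obtain ⟨v, hv, hv0⟩ := hpd
      obtain ⟨w, hw, hw0, hww⟩ := exists_ker D haN.1 hv (le_antisymm hv0 (haN.1 v))
      have h1 := haN.2.2 w hw hw0
      rw [hb, hww] at h1
      refine Or.inr ⟨?_, haN.1⟩
      have h2 : b ≤ 0 := by exact_mod_cast h1
      omega
  obtain ⟨N, hN, heff⟩ := effective_cls (m := m) hj hρ hr0 hr D b key (y := (6 : ℝ) • a)
    (fun u w => by rw [frm_smul]; push_cast; ring) (by rw [coef_smul, hb])
  have hNr : (0 : ℝ) < N := by exact_mod_cast hN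
  have h1 := span_smul (span_self heff) (t := 1 / (6 * N)) (by positivity)
  have h2 : (1 / (6 * (N : ℝ))) • (N : ℝ) • (6 : ℝ) • a = a := by
    rw [smul_smul, smul_smul]
    have e1 : 1 / (6 * (N : ℝ)) * N * 6 = 1 := by field_simp
    rw [e1, one_smul]
  rwa [h2] at h1

/-- The element of a cone of integral classes of `Nf`. -/
theorem Cp_le [Nonempty ι] (hj : IsExt ρ j) (hρ : Function.Injective ρ) (hr0 : 2 ≤ r)
    (hr : r ≤ 5) {x : N1 (kum ι m) j}
    (hx : x ∈ Cp (AddSubgroup.closure (integral (kum ι m) j)) (Nf m j)) :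
    x ∈ nefCone (kum ι m) j ∩ effCone (kum ι m) j := by
  obtain ⟨S, hS, hx⟩ := hx
  exact ⟨cone_nef (fun a ha => nef_of_int hj hρ hr (hS a ha).1 (hS a ha).2) hx,
    cone_span (fun a ha => eff_of_int hj hρ hr0 hr (hS a ha).1 (hS a ha).2) hx⟩

/-- The nef cone. -/
theorem nefCone_eq [Nonempty ι] (hj : IsExt ρ j) (hρ : Function.Injective ρ) (hr : r ≤ 5) :
    nefCone (kum ι m) j = Nf m j := by
  refine Set.Subset.antisymm (nefCone_le hj hρ) fun x hx => ?_
  obtain ⟨y₀, hy0, hy1, hy2⟩ := exists_y₀ m hj hρ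
  have hyN : y₀ ∈ Nf m j := by
    refine ⟨fun v => ?_, by rw [hy2]; norm_num, fun v hv hv0 => ?_⟩
    · rw [hy1, re_twelve]
      have := std_nonneg v
      positivity
    · rw [hy1, re_twelve, hy2]
      have := one_le_std hv hv0
      linarith
  refine mem_closed (y := y₀) isClosed_closure fun k => ?_
  have hk : (0 : ℝ) < 1 / ((k : ℝ) + 1) := by positivity
  obtain ⟨S, hS, h1⟩ := Cp_of_pd hj hρ (Nf_add hx (Nf_smul hk.le hyN))
    ⟨1 / ((k : ℝ) + 1) * 12, by positivity, fun v => by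
      rw [frm_add, Complex.add_re, frm_smul, Complex.re_ofReal_mul, hy1, re_twelve]
      have := hx.1 v
      linarith⟩
  exact cone_nef (fun a ha => nef_of_int hj hρ hr (hS a ha).1 (hS a ha).2) h1

theorem mem_Cp_iff [Nonempty ι] (hj : IsExt ρ j) (hρ : Function.Injective ρ) (hr0 : 2 ≤ r)
    (hr : r ≤ 5) (x : N1 (kum ι m) j) :
    x ∈ Cp (AddSubgroup.closure (integral (kum ι m) j)) (Nf m j) ↔
      x ∈ nefCone (kum ι m) j ∩ effCone (kum ι m) j :=
  ⟨fun h => Cp_le hj hρ hr0 hr h, fun h => Cp_of_eff hj hρ (nefCone_le hj hρ h.1) h.2⟩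

/-- **The cone conjecture**, general form. -/
theorem core [Nonempty ι] (hj : IsExt ρ j) (hρ : Function.Injective ρ) (hr0 : 2 ≤ r)
    (hr : r ≤ 5) (𝒢 : LinGrp (N1 (kum ι m) j)) (h1 : Preserves 𝒢 (integral (kum ι m) j))
    (h2 : Preserves 𝒢 (nefCone (kum ι m) j ∩ effCone (kum ι m) j))
    (h3 : ∀ g u, IsPb g u → g ∈ 𝒢) :
    ∃ S : Finset (N1 (kum ι m) j), ↑S ⊆ integral (kum ι m) j ∧
      cone S ⊆ nefCone (kum ι m) j ∩ effCone (kum ι m) j ∧
      IsFundDomain 𝒢 (nefCone (kum ι m) j ∩ effCone (kum ι m) j) (cone S) := by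
  classical
  have hr' : 0 < r := by omega
  obtain ⟨y₀, hy0, hy1, hy2⟩ := exists_y₀ m hj hρ
  obtain ⟨Y, D⟩ := exists_cdata hj hr' hy0 hy1 hy2
  obtain ⟨F₁, hF₁, hcov⟩ := covering m hj hρ
  have h𝒢L : ∀ g ∈ 𝒢, ∀ x ∈ AddSubgroup.closure (integral (kum ι m) j),
      g x ∈ AddSubgroup.closure (integral (kum ι m) j) := fun g hg x hx =>
    closure_map (h1 g hg) hx
  have hpd : ∀ (t : ℝ) (x : N1 (kum ι m) j), 0 < t → x - t • y₀ ∈ Nf m j →
      x ∈ Nf m j ∧ ∃ t : ℝ, 0 < t ∧ ∀ v, t * (std v v).re ≤ (frm x v v).re := by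
    intro t x ht hx
    have h4 : x = (x - t • y₀) + t • y₀ := by abel
    refine ⟨?_, t * 12, by positivity, fun v => ?_⟩
    · rw [h4]
      exact Nf_add hx (Nf_smul ht.le D.y_N)
    · rw [h4, frm_add, Complex.add_re, frm_smul, Complex.re_ofReal_mul, hy1, re_twelve]
      have := hx.1 v
      linarith
  have hadd : ∀ x ∈ Nf m j, ∀ t : ℝ, 0 < t →
      x + t • y₀ ∈ nefCone (kum ι m) j ∩ effCone (kum ι m) j := by
    intro x hx t ht
    obtain ⟨k1, k2⟩ := hpd t (x + t • y₀) ht (by rwa [add_sub_cancel_right])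
    exact Cp_le hj hρ hr0 hr (Cp_of_pd hj hρ k1 k2)
  have h𝒢N : ∀ g ∈ 𝒢, ∀ x ∈ Nf m j, g x ∈ Nf m j := by
    intro g hg x hx
    refine mem_closed (y := g y₀) isClosed_Nf fun n => ?_
    have h4 := h2 g hg _ (hadd x hx (1 / ((n : ℝ) + 1)) (by positivity))
    rw [map_add, map_smul] at h4
    exact nefCone_le hj hρ h4.1
  obtain ⟨S, hS1, hS2, hS3⟩ := D.domain 𝒢 h𝒢L h𝒢N F₁ hF₁ (by
    rintro x ⟨t, ht, hx⟩
    obtain ⟨k1, k2⟩ := hpd t x ht hx
    obtain ⟨g, u, hg, hgx⟩ := hcov x k1 k2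
    exact ⟨g, h3 g u hg, hgx⟩)
  have hcone : ∀ x, x ∈ cone (S.image fun a => (6 : ℝ) • a) ↔ x ∈ cone S := by
    intro x
    constructor
    · refine fun h => cone_le (fun a ha => ?_) h
      obtain ⟨a', ha', rfl⟩ := Finset.mem_image.1 ha
      exact cone_smul (mem_cone_self ha') (by norm_num)
    · refine fun h => cone_le (fun a ha => ?_) h
      exact cone_of_scaled (k := 6) (by norm_num)
        (Finset.mem_image_of_mem (fun a => (6 : ℝ) • a) ha)
  have hcone' : cone (S.image fun a => (6 : ℝ) • a) = cone S := Set.ext hcone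
  refine ⟨S.image fun a => (6 : ℝ) • a, ?_, ?_, ?_, ?_⟩
  · intro a ha
    obtain ⟨a', ha', rfl⟩ := Finset.mem_image.1 ha
    exact six_int hj hρ (hS1 a' ha').1 (hS1 a' ha').2
  · rw [hcone']
    intro x hx
    exact Cp_le hj hρ hr0 hr ⟨S, hS1, hx⟩
  · ext x
    rw [← mem_Cp_iff hj hρ hr0 hr, hS2, hcone', Set.mem_iUnion₂]
    constructor
    · rintro ⟨g, hg, hgx⟩
      exact ⟨g⁻¹, 𝒢.inv_mem hg, g x, hgx, g.symm_apply_apply x⟩
    · rintro ⟨g, hg, y, hy, rfl⟩
      refine ⟨g⁻¹, 𝒢.inv_mem hg, ?_⟩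
      have : (g⁻¹ : N1 (kum ι m) j ≃ₗ[ℝ] N1 (kum ι m) j) (g y) = y := g.symm_apply_apply y
      rwa [this]
  · intro g hg hg1
    rw [hcone', Set.eq_empty_iff_forall_notMem]
    obtain ⟨φ, hφ0, hφ1, hφ2⟩ := hS3 g hg hg1
    rintro x ⟨hx, y, hy, rfl⟩
    have h4 := hφ2 y hy
    obtain ⟨w, hw⟩ : ∃ w, 0 < φ w := by
      by_contra hcon
      push Not at hcon
      apply hφ0
      ext w
      have e1 := hcon w
      have e2 := hcon (-w)
      rw [map_neg] at e2
      show φ w = 0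
      linarith
    have hcont : Continuous fun t : ℝ => g y - t • w := by fun_prop
    have hmem : ∀ᶠ t : ℝ in 𝓝 0, g y - t • w ∈ interior (cone S) := by
      apply hcont.continuousAt.eventually_mem
      rw [zero_smul, sub_zero]
      exact isOpen_interior.mem_nhds hx
    obtain ⟨ε, hε, hball⟩ := Metric.eventually_nhds_iff.1 hmem
    have h5 := interior_subset (hball (y := ε / 2) (by
      rw [Real.dist_eq, sub_zero, abs_of_pos (by linarith)]
      linarith))
    have h6 := hφ1 _ h5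
    rw [map_sub, map_smul, smul_eq_mul] at h6
    have h7 : 0 < ε / 2 * φ w := by positivity
    linarith

end Pool.Agent.T6.H41.K5
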